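import Mathlib
import Pool.Agent.W78.EG.Defs

/-! Characters modulo `D` and the weights `th` (part 1 of LSV). -/

set_option autoImplicit false

namespace Pool.Agent.W699.EG

open Finset
open Pool.Agent.W78.EG

variable {e : ℕ} {κ : DirichletCharacter ℂ e}

theorem mem_PQ {Q m : ℕ} : m ∈ PQ κ Q ↔ (Q < m ∧ m ≤ 2 * Q) ∧ m.Prime ∧ κ (m : ZMod e) = 1 := by
  unfold PQ
  rw [mem_filter, mem_Ioc]

theorem th_nat (κ : DirichletCharacter ℂ e) (Q m : ℕ) : th κ Q (m : ℤ) = if m ∈ PQ κ Q then Real.log m else 0 := by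
  unfold th
  by_cases h : m ∈ PQ κ Q
  · have h1 : 0 < m := by have := (mem_PQ.1 h).1.1; omega
    rw [if_pos ⟨by exact_mod_cast h1, by simpa using h⟩, if_pos h]
    simp
  · rw [if_neg h, if_neg]
    rintro ⟨_, h2⟩
    exact h (by simpa using h2)

theorem th_nonneg (κ : DirichletCharacter ℂ e) (Q m : ℕ) : 0 ≤ th κ Q (m : ℤ) := by
  rw [th_nat]
  split_ifs
  · exact Real.log_natCast_nonneg m
  · exact le_rfl

theorem th_ne {Q m : ℕ} (h : th κ Q (m : ℤ) ≠ 0) : m ∈ PQ κ Q := by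
  rw [th_nat] at h
  by_contra hc
  exact h (if_neg hc)

theorem th_le (κ : DirichletCharacter ℂ e) {Q : ℕ} (hQ : 1 ≤ Q) (m : ℕ) : th κ Q (m : ℤ) ≤ Real.log (2 * Q) := by
  have hQ1 : (1 : ℝ) ≤ Q := by exact_mod_cast hQ
  rw [th_nat]
  split_ifs with h
  · have h1 := mem_PQ.1 h
    apply Real.log_le_log
    · exact_mod_cast (by omega : 0 < m)
    · exact_mod_cast h1.1.2
  · exact Real.log_nonneg (by linarith)

/-- at most one prime in `(Q, 2 Q]` divides `D` -/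
theorem bad_sum (κ : DirichletCharacter ℂ e) {Q D C₀ : ℕ} (hQ : 1 ≤ Q) (hC : C₀ ≤ Q) (hD : 1 ≤ D) (hDQ : D ≤ C₀ * Q) (t : ℕ) :
    ∑ m ∈ (Ioc Q t).filter (fun m => ¬ m.Coprime D), th κ Q (m : ℤ) ≤ Real.log (2 * Q) := by
  have hQ1 : (1 : ℝ) ≤ Q := by exact_mod_cast hQ
  have hL : 0 ≤ Real.log (2 * Q) := Real.log_nonneg (by linarith)
  rw [← sum_filter_ne_zero]
  have hcard : ((((Ioc Q t).filter (fun m => ¬ m.Coprime D))).filter
      (fun m : ℕ => th κ Q (m : ℤ) ≠ 0)).card ≤ 1 := by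
    rw [card_le_one]
    intro a ha b hb
    rw [mem_filter, mem_filter] at ha hb
    have ha' := mem_PQ.1 (th_ne ha.2)
    have hb' := mem_PQ.1 (th_ne hb.2)
    by_contra hne
    have h1 : a ∣ D := by
      by_contra hc
      exact ha.1.2 ((Nat.Prime.coprime_iff_not_dvd ha'.2.1).2 hc)
    have h2 : b ∣ D := by
      by_contra hc
      exact hb.1.2 ((Nat.Prime.coprime_iff_not_dvd hb'.2.1).2 hc)
    have h3 : Nat.Coprime a b := (Nat.coprime_primes ha'.2.1 hb'.2.1).2 hne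
    have h4 : a * b ∣ D := h3.mul_dvd_of_dvd_of_dvd h1 h2
    have h5 : a * b ≤ D := Nat.le_of_dvd hD h4
    have h6 : Q * Q < a * b := by nlinarith [ha'.1.1, hb'.1.1]
    have h7 : C₀ * Q ≤ Q * Q := Nat.mul_le_mul_right _ hC
    omega
  calc _ ≤ ∑ _m ∈ ((((Ioc Q t).filter (fun m => ¬ m.Coprime D))).filter
        (fun m : ℕ => th κ Q (m : ℤ) ≠ 0)), Real.log (2 * Q) := sum_le_sum fun m _ => th_le κ hQ m
    _ = ((((Ioc Q t).filter (fun m => ¬ m.Coprime D))).filter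
      (fun m : ℕ => th κ Q (m : ℤ) ≠ 0)).card * Real.log (2 * Q) := by rw [sum_const, nsmul_eq_mul]
    _ ≤ 1 * Real.log (2 * Q) := by
        apply mul_le_mul_of_nonneg_right _ hL
        exact_mod_cast hcard
    _ = _ := one_mul _

/-- character sums over primes -/
noncomputable def SS (κ : DirichletCharacter ℂ e) (Q t : ℕ) {D : ℕ} (χ : DirichletCharacter ℂ D) : ℂ :=
  ∑ m ∈ Ioc Q t, (th κ Q (m : ℤ) : ℂ) * χ (m : ZMod D)

/-- the sum over the integers prime to `D` -/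
noncomputable def TD (κ : DirichletCharacter ℂ e) (Q t D : ℕ) : ℝ := ∑ m ∈ Ioc Q t, if m.Coprime D then th κ Q (m : ℤ) else 0

theorem TD_nonneg (κ : DirichletCharacter ℂ e) (Q t D : ℕ) : 0 ≤ TD κ Q t D :=
  sum_nonneg fun m _ => by split_ifs; exacts [th_nonneg κ Q m, le_rfl]

theorem TD_diff (κ : DirichletCharacter ℂ e) {Q D C₀ : ℕ} (hQ : 1 ≤ Q) (hC : C₀ ≤ Q) (hD : 1 ≤ D) (hDQ : D ≤ C₀ * Q) (t : ℕ) :
    |TD κ Q t D - ∑ m ∈ Ioc Q t, th κ Q (m : ℤ)| ≤ Real.log (2 * Q) := by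
  have h1 := bad_sum κ hQ hC hD hDQ t
  have h2 : ∑ m ∈ Ioc Q t, th κ Q (m : ℤ) =
      TD κ Q t D + ∑ m ∈ (Ioc Q t).filter (fun m => ¬ m.Coprime D), th κ Q (m : ℤ) := by
    unfold TD
    rw [← sum_filter, sum_filter_add_sum_filter_not]
  rw [h2]
  have h3 : 0 ≤ ∑ m ∈ (Ioc Q t).filter (fun m => ¬ m.Coprime D), th κ Q (m : ℤ) :=
    sum_nonneg fun m _ => th_nonneg κ Q m
  rw [sub_add_cancel_left, abs_neg, abs_of_nonneg h3]
  exact h1

/-- a character whose values at the primes `p` prime to `D` with `κ(p) = 1` are one -/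
theorem SS_triv {Q t D : ℕ} (χ : DirichletCharacter ℂ D)
    (h : ∀ m : ℕ, m.Coprime D → κ (m : ZMod e) = 1 → χ (m : ZMod D) = 1) : SS κ Q t χ = (TD κ Q t D : ℂ) := by
  unfold SS TD
  rw [Complex.ofReal_sum]
  refine sum_congr rfl fun m _ => ?_
  by_cases hm : m.Coprime D
  · rw [if_pos hm]
    by_cases h0 : th κ Q (m : ℤ) = 0
    · rw [h0]; simp
    · rw [h m hm (mem_PQ.1 (th_ne h0)).2.2, mul_one]
  · rw [if_neg hm, MulChar.map_nonunit _ (fun hu => hm ((ZMod.isUnit_iff_coprime m D).mp hu))]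
    simp

theorem SS_changeLevel (κ : DirichletCharacter ℂ e) {Q D C₀ f : ℕ} (hQ : 1 ≤ Q) (hC : C₀ ≤ Q) (hD : 1 ≤ D)
    (hDQ : D ≤ C₀ * Q) (t : ℕ) (hf : f ∣ D) (ψ : DirichletCharacter ℂ f) :
    ‖SS κ Q t (DirichletCharacter.changeLevel hf ψ)‖ ≤ ‖SS κ Q t ψ‖ + Real.log (2 * Q) := by
  have h1 : ‖SS κ Q t ψ - SS κ Q t (DirichletCharacter.changeLevel hf ψ)‖ ≤ Real.log (2 * Q) := by
    refine le_trans ?_ (bad_sum κ hQ hC hD hDQ t)
    unfold SS
    rw [← sum_sub_distrib, sum_filter]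
    refine (norm_sum_le _ _).trans (sum_le_sum fun m _ => ?_)
    by_cases hm : m.Coprime D
    · have h2 := DirichletCharacter.changeLevel_eq_cast_of_dvd' ψ hf (a := (m : ℤ))
        (by exact_mod_cast Nat.isCoprime_iff_coprime.mpr hm)
      push_cast at h2
      rw [h2, sub_self, norm_zero, if_neg (not_not.2 hm)]
    · rw [if_pos hm, MulChar.map_nonunit (DirichletCharacter.changeLevel hf ψ)
        (fun hu => hm ((ZMod.isUnit_iff_coprime m D).mp hu)), mul_zero, sub_zero, norm_mul,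
        Complex.norm_real, Real.norm_eq_abs, abs_of_nonneg (th_nonneg κ Q m)]
      calc th κ Q (m : ℤ) * ‖ψ (m : ZMod f)‖ ≤ th κ Q (m : ℤ) * 1 :=
            mul_le_mul_of_nonneg_left (ψ.norm_le_one _) (th_nonneg κ Q m)
        _ = _ := mul_one _
  have h3 := norm_sub_norm_le (SS κ Q t (DirichletCharacter.changeLevel hf ψ)) (SS κ Q t ψ)
  rw [norm_sub_rev] at h3
  linarith

/-- orthogonality -/
theorem orth {D : ℕ} [NeZero D] (a b : ZMod D) (hb : IsUnit b) :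
    ∑ χ : DirichletCharacter ℂ D, χ b * χ⁻¹ a = if a = b then (Nat.totient D : ℂ) else 0 := by
  by_cases ha : IsUnit a
  · have h1 := DirichletCharacter.sum_char_inv_mul_char_eq ℂ ha b
    rw [← h1]
    refine sum_congr rfl fun χ _ => ?_
    rw [mul_comm]
    congr 1
    rw [MulChar.inv_apply_eq_inv']
    have h2 : χ (a⁻¹) * χ a = 1 := by
      rw [← map_mul, ZMod.inv_mul_of_unit a ha, map_one]
    exact (eq_inv_of_mul_eq_one_left h2).symm
  · rw [if_neg (by rintro rfl; exact ha hb)]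
    refine sum_eq_zero fun χ _ => ?_
    rw [MulChar.map_nonunit _ ha, mul_zero]

/-- the number of pairs of primes in residue classes, by characters -/
theorem pairs_eq {Q t u D c : ℕ} [NeZero D] (hc : c.Coprime D) :
    ((∑ m₁ ∈ Ioc Q t, ∑ m₂ ∈ Ioc Q u, if m₁.Coprime D ∧ m₂ ≡ c * m₁ [MOD D] then
      th κ Q (m₁ : ℤ) * th κ Q (m₂ : ℤ) else 0 : ℝ) : ℂ) =
    1 / (Nat.totient D : ℂ) * ∑ χ : DirichletCharacter ℂ D,
      χ (c : ZMod D) * (SS κ Q t χ * SS κ Q u χ⁻¹) := by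
  have h0 : (Nat.totient D : ℂ) ≠ 0 := by
    have := Nat.totient_pos.mpr (NeZero.pos D)
    exact_mod_cast this.ne'
  have hcu : IsUnit (c : ZMod D) := (ZMod.isUnit_iff_coprime c D).mpr hc
  have h1 : ∀ m₁ m₂ : ℕ, ((if m₁.Coprime D ∧ m₂ ≡ c * m₁ [MOD D] then
      th κ Q (m₁ : ℤ) * th κ Q (m₂ : ℤ) else 0 : ℝ) : ℂ) =
      ∑ χ : DirichletCharacter ℂ D, 1 / (Nat.totient D : ℂ) * (χ (c : ZMod D) *
        (((th κ Q (m₁ : ℤ) : ℂ) * χ (m₁ : ZMod D)) * ((th κ Q (m₂ : ℤ) : ℂ) * χ⁻¹ (m₂ : ZMod D)))) := by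
    intro m₁ m₂
    by_cases hm : m₁.Coprime D
    · have hmu : IsUnit ((c : ZMod D) * (m₁ : ZMod D)) :=
        hcu.mul ((ZMod.isUnit_iff_coprime m₁ D).mpr hm)
      have h2 := orth (m₂ : ZMod D) ((c : ZMod D) * (m₁ : ZMod D)) hmu
      have h3 : ∑ χ : DirichletCharacter ℂ D, 1 / (Nat.totient D : ℂ) * (χ (c : ZMod D) *
        (((th κ Q (m₁ : ℤ) : ℂ) * χ (m₁ : ZMod D)) * ((th κ Q (m₂ : ℤ) : ℂ) * χ⁻¹ (m₂ : ZMod D)))) =
        1 / (Nat.totient D : ℂ) * ((th κ Q (m₁ : ℤ) : ℂ) * (th κ Q (m₂ : ℤ) : ℂ)) *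
          ∑ χ : DirichletCharacter ℂ D, χ ((c : ZMod D) * (m₁ : ZMod D)) * χ⁻¹ (m₂ : ZMod D) := by
        rw [mul_sum]
        refine sum_congr rfl fun χ _ => ?_
        rw [map_mul]; ring
      rw [h3, h2]
      have h4 : (m₂ ≡ c * m₁ [MOD D]) ↔ (m₂ : ZMod D) = (c : ZMod D) * (m₁ : ZMod D) := by
        rw [← ZMod.natCast_eq_natCast_iff]
        push_cast
        rfl
      by_cases h5 : m₂ ≡ c * m₁ [MOD D]
      · rw [if_pos ⟨hm, h5⟩, if_pos (h4.1 h5)]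
        push_cast
        field_simp
      · rw [if_neg (fun h => h5 h.2), if_neg (fun h => h5 (h4.2 h))]
        simp
    · rw [if_neg (fun h => hm h.1)]
      symm
      rw [Complex.ofReal_zero]
      refine sum_eq_zero fun χ _ => ?_
      rw [MulChar.map_nonunit χ (fun hu => hm ((ZMod.isUnit_iff_coprime m₁ D).mp hu))]
      simp
  rw [Complex.ofReal_sum]
  simp_rw [Complex.ofReal_sum, h1]
  rw [sum_congr rfl fun m₁ _ => sum_comm, sum_comm, mul_sum]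
  refine sum_congr rfl fun χ _ => ?_
  unfold SS
  rw [sum_mul_sum, mul_sum, mul_sum]
  refine sum_congr rfl fun m₁ _ => ?_
  rw [mul_sum, mul_sum]

/-- Parseval -/
theorem parseval {D : ℕ} [NeZero D] (T : Finset (DirichletCharacter ℂ D))
    (a : DirichletCharacter ℂ D → ℂ) :
    ∑ x : ZMod D, ‖∑ χ ∈ T, χ x * a χ‖ ^ 2 = (Nat.totient D : ℝ) * ∑ χ ∈ T, ‖a χ‖ ^ 2 := by
  classical
  have h1 : ((∑ x : ZMod D, ‖∑ χ ∈ T, χ x * a χ‖ ^ 2 : ℝ) : ℂ) =
      (((Nat.totient D : ℝ) * ∑ χ ∈ T, ‖a χ‖ ^ 2 : ℝ) : ℂ) := by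
    push_cast
    have h2 : ∀ x : ZMod D, ((‖∑ χ ∈ T, χ x * a χ‖ : ℂ)) ^ 2 =
        ∑ χ ∈ T, ∑ ψ ∈ T, a χ * (starRingEnd ℂ) (a ψ) * (χ * ψ⁻¹) x := by
      intro x
      rw [← Complex.mul_conj', map_sum, sum_mul_sum]
      refine sum_congr rfl fun χ _ => sum_congr rfl fun ψ _ => ?_
      rw [map_mul, MulChar.mul_apply]
      have h3 : (starRingEnd ℂ) (ψ x) = ψ⁻¹ x := MulChar.star_apply' ψ x
      rw [h3]; ring
    rw [sum_congr rfl fun x _ => h2 x, sum_comm]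
    rw [mul_sum]
    refine sum_congr rfl fun χ hχ => ?_
    rw [sum_comm, sum_eq_single χ]
    · rw [← mul_sum, mul_inv_cancel, MulChar.sum_one_eq_card_units, ZMod.card_units_eq_totient,
        Complex.mul_conj']
      push_cast
      ring
    · intro ψ _ hne
      rw [← mul_sum, MulChar.sum_eq_zero_of_ne_one, mul_zero]
      intro h
      exact hne (mul_inv_eq_one.1 h).symm
    · intro h; exact absurd hχ h
  exact_mod_cast h1

end Pool.Agent.W699.EG
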