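import Mathlib
import Pool.Agent.W699.EG.LsvA
import Pool.Agent.W333.EC.LsvD

/-! Exceptional characters, primitive characters (part 2 of LSV). -/

set_option autoImplicit false

namespace Pool.Agent.W699.EG

open Finset
open Pool.Agent.W78.EG

variable {e : ℕ} {κ : DirichletCharacter ℂ e}

open scoped Classical in
/-- the exceptional characters -/
noncomputable def Ex (κ : DirichletCharacter ℂ e) (D : ℕ) : Finset (DirichletCharacter ℂ D) :=
  univ.filter (fun χ => χ = 1 ∨ ∃ h : e ∣ D, χ = DirichletCharacter.changeLevel h κ)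

theorem mem_Ex {D : ℕ} {χ : DirichletCharacter ℂ D} :
    χ ∈ Ex κ D ↔ χ = 1 ∨ ∃ h : e ∣ D, χ = DirichletCharacter.changeLevel h κ := by
  classical
  unfold Ex
  rw [mem_filter]
  exact ⟨fun h => h.2, fun h => ⟨mem_univ _, h⟩⟩

open scoped Classical in
/-- the other characters -/
noncomputable def Oth (κ : DirichletCharacter ℂ e) (D : ℕ) : Finset (DirichletCharacter ℂ D) :=
  univ.filter (fun χ => ¬ χ ∈ Ex κ D)

theorem mem_Oth {D : ℕ} {χ : DirichletCharacter ℂ D} : χ ∈ Oth κ D ↔ χ ∉ Ex κ D := by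
  classical
  unfold Oth
  rw [mem_filter]
  exact ⟨fun h => h.2, fun h => ⟨mem_univ _, h⟩⟩

theorem sum_split (κ : DirichletCharacter ℂ e) {D : ℕ} (F : DirichletCharacter ℂ D → ℂ) :
    ∑ χ : DirichletCharacter ℂ D, F χ = ∑ χ ∈ Ex κ D, F χ + ∑ χ ∈ Oth κ D, F χ := by
  classical
  unfold Oth
  rw [← sum_filter_add_sum_filter_not univ (fun χ => χ ∈ Ex κ D) F]
  congr 1
  refine sum_congr ?_ fun _ _ => rfl
  ext χ
  simp

theorem chL {D : ℕ} (h : e ∣ D) {m : ℕ} (hm : m.Coprime D) :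
    DirichletCharacter.changeLevel h κ (m : ZMod D) = κ (m : ZMod e) := by
  have h2 := DirichletCharacter.changeLevel_eq_cast_of_dvd' κ h (a := (m : ℤ))
    (by exact_mod_cast Nat.isCoprime_iff_coprime.mpr hm)
  push_cast at h2
  rw [h2]

theorem inv_one_of {D : ℕ} (χ : DirichletCharacter ℂ D) {x : ZMod D} (h : χ x = 1) :
    χ⁻¹ x = 1 := by
  rw [MulChar.inv_apply_eq_inv', h, inv_one]

/-- the contribution of the exceptional characters -/
theorem Ex_sum (hne : κ ≠ 1)
    (hv : ∀ n : ℕ, κ (n : ZMod e) = 0 ∨ κ (n : ZMod e) = 1 ∨ κ (n : ZMod e) = -1)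
    {Q t u D c : ℕ} [NeZero D] (hc : c.Coprime D) :
    ∑ χ ∈ Ex κ D, χ (c : ZMod D) * (SS κ Q t χ * SS κ Q u χ⁻¹) =
      (((1 + ch κ D c) * (TD κ Q t D * TD κ Q u D) : ℝ) : ℂ) := by
  have hcu : IsUnit (c : ZMod D) := (ZMod.isUnit_iff_coprime c D).mpr hc
  have hone : ∀ m : ℕ, m.Coprime D → κ (m : ZMod e) = 1 →
      (1 : DirichletCharacter ℂ D) (m : ZMod D) = 1 :=
    fun m hm _ => MulChar.one_apply ((ZMod.isUnit_iff_coprime m D).mpr hm)
  have h1 : (1 : DirichletCharacter ℂ D) (c : ZMod D) *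
      (SS κ Q t (1 : DirichletCharacter ℂ D) * SS κ Q u (1 : DirichletCharacter ℂ D)⁻¹) =
      (TD κ Q t D : ℂ) * (TD κ Q u D : ℂ) := by
    rw [MulChar.one_apply hcu, inv_one, SS_triv _ hone, SS_triv _ hone, one_mul]
  classical
  by_cases h : e ∣ D
  · have hEx : Ex κ D = {1, DirichletCharacter.changeLevel h κ} := by
      ext χ
      rw [mem_Ex, mem_insert, mem_singleton]
      constructor
      · rintro (h2 | ⟨_, h2⟩)
        · exact Or.inl h2
        · exact Or.inr h2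
      · rintro (h2 | h2)
        · exact Or.inl h2
        · exact Or.inr ⟨h, h2⟩
    rw [hEx, sum_insert, sum_singleton, h1]
    · have hone' : ∀ m : ℕ, m.Coprime D → κ (m : ZMod e) = 1 →
          DirichletCharacter.changeLevel h κ (m : ZMod D) = 1 := fun m hm h1 => by
        rw [chL h hm, h1]
      rw [SS_triv _ hone', SS_triv (DirichletCharacter.changeLevel h κ)⁻¹
        (fun m hm h1 => inv_one_of _ (hone' m hm h1)), chL h hc]
      unfold ch
      rw [if_pos h]
      have h5 : κ (c : ZMod e) = ((κ (c : ZMod e)).re : ℂ) := by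
        rcases hv c with h2 | h2 | h2 <;> rw [h2] <;> simp
      rw [h5]
      push_cast
      simp only [Complex.ofReal_re]
      ring
    · rw [mem_singleton]
      intro h2
      have h3 : DirichletCharacter.changeLevel h κ =
          DirichletCharacter.changeLevel h (1 : DirichletCharacter ℂ e) := by
        rw [← h2, DirichletCharacter.changeLevel_one]
      exact hne (DirichletCharacter.changeLevel_injective h h3)
  · have hEx : Ex κ D = {1} := by
      ext χ
      rw [mem_Ex, mem_singleton]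
      constructor
      · rintro (h2 | ⟨h3, _⟩)
        · exact h2
        · exact absurd h3 h
      · exact Or.inl
    rw [hEx, sum_singleton, h1]
    simp only [ch, if_neg h]
    push_cast; ring

/-- the primitive character determines the modulus -/
theorem level_eq {q : ℕ} (hq : 0 < q) (he : 0 < e) (hκ : κ.IsPrimitive)
    {ψ : DirichletCharacter ℂ q} (hψ : ψ.IsPrimitive)
    (h : ∀ n : ℕ, ψ (n : ZMod q) = κ (n : ZMod e)) : q = e := by
  have : NeZero (q * e) := ⟨(Nat.mul_pos hq he).ne'⟩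
  have h1 : DirichletCharacter.changeLevel (dvd_mul_right q e) ψ =
      DirichletCharacter.changeLevel (dvd_mul_left e q) κ := by
    ext u
    obtain ⟨n, hn, hu⟩ : ∃ n : ℕ, n.Coprime (q * e) ∧ (u : ZMod (q * e)) = (n : ZMod (q * e)) :=
      ⟨(u : ZMod (q * e)).val, ZMod.val_coe_unit_coprime u, (ZMod.natCast_zmod_val _).symm⟩
    rw [hu, chL _ hn, chL _ hn, h]
  have h2 := DirichletCharacter.conductor_changeLevel ψ (dvd_mul_right q e)
  have h3 := DirichletCharacter.conductor_changeLevel κ (dvd_mul_left e q)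
  rw [h1, h3] at h2
  rw [← hψ, ← hκ]
  exact h2.symm

open scoped Classical in
/-- sums over primitive characters other than `κ` -/
noncomputable def PS (κ : DirichletCharacter ℂ e) (f : ℕ) (g : DirichletCharacter ℂ f → ℝ) : ℝ :=
  ∑ ψ ∈ (univ : Finset (DirichletCharacter ℂ f)).filter (fun χ => χ.IsPrimitive ∧
    ∃ n : ℕ, χ (n : ZMod f) ≠ κ (n : ZMod e)), g ψ

theorem PS_mul (κ : DirichletCharacter ℂ e) (f : ℕ) (g : DirichletCharacter ℂ f → ℝ) (c : ℝ) :
    PS κ f (fun ψ => c * g ψ) = c * PS κ f g := by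
  unfold PS
  rw [mul_sum]

theorem PS_nonneg (κ : DirichletCharacter ℂ e) (f : ℕ) (g : DirichletCharacter ℂ f → ℝ) (h : ∀ ψ, 0 ≤ g ψ) : 0 ≤ PS κ f g :=
  sum_nonneg fun ψ _ => h ψ

open scoped Classical in
/-- sums over non-exceptional characters and primitive characters -/
theorem prim_sum (he : 0 < e) (hκ : κ.IsPrimitive) (D : ℕ) [NeZero D] (w : DirichletCharacter ℂ D → ℝ) (hw : ∀ χ, 0 ≤ w χ)
    (W : (f : ℕ) → DirichletCharacter ℂ f → ℝ)
    (hW : ∀ f (h : f ∣ D) (ψ : DirichletCharacter ℂ f),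
      w (DirichletCharacter.changeLevel h ψ) ≤ W f ψ) :
    ∑ χ ∈ Oth κ D, w χ ≤
      ∑ f ∈ D.divisors.filter (fun f => f ≠ 1), PS κ f (W f) := by
  have h1 : ∀ χ ∈ Oth κ D,
      χ.conductor ∈ D.divisors.filter (fun f => f ≠ 1) := by
    intro χ hχ
    rw [mem_Oth] at hχ
    rw [mem_filter]
    refine ⟨Nat.mem_divisors.mpr ⟨χ.conductor_dvd_level, NeZero.ne D⟩, ?_⟩
    intro h
    apply hχ
    rw [mem_Ex]
    exact Or.inl (DirichletCharacter.eq_one_iff_conductor_eq_one.mpr h)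
  rw [← sum_fiberwise_of_maps_to h1]
  apply sum_le_sum
  intro f hf
  unfold PS
  rw [mem_filter, Nat.mem_divisors] at hf
  have hfm := hf.1.1
  have h2 : ((Oth κ D).filter
      (fun χ => χ.conductor = f)) ⊆
      ((univ : Finset (DirichletCharacter ℂ f)).filter (fun χ => χ.IsPrimitive ∧
        ∃ n : ℕ, χ (n : ZMod f) ≠ κ (n : ZMod e))).image
        (DirichletCharacter.changeLevel hfm) := by
    intro χ hχ
    rw [mem_filter] at hχ
    obtain ⟨hO, hc⟩ := hχ
    subst hc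
    rw [mem_image]
    refine ⟨χ.primitiveCharacter, ?_, χ.changeLevel_primitiveCharacter⟩
    rw [mem_filter]
    refine ⟨mem_univ _, χ.primitiveCharacter_isPrimitive, ?_⟩
    by_contra hn
    push Not at hn
    rw [mem_Oth] at hO
    apply hO
    rw [mem_Ex]
    have hqe := level_eq (Nat.pos_of_ne_zero χ.conductor_ne_zero) he hκ
      χ.primitiveCharacter_isPrimitive hn
    have hed : e ∣ D := hqe ▸ χ.conductor_dvd_level
    refine Or.inr ⟨hed, ?_⟩
    ext u
    obtain ⟨n, hn', hu⟩ : ∃ n : ℕ, n.Coprime D ∧ (u : ZMod D) = (n : ZMod D) :=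
      ⟨(u : ZMod D).val, ZMod.val_coe_unit_coprime u, (ZMod.natCast_zmod_val _).symm⟩
    rw [hu, chL hed hn', ← hn n, ← chL (κ := χ.primitiveCharacter) hfm hn',
      χ.changeLevel_primitiveCharacter]
  calc _ ≤ ∑ χ ∈ ((univ : Finset (DirichletCharacter ℂ f)).filter (fun χ => χ.IsPrimitive ∧
        ∃ n : ℕ, χ (n : ZMod f) ≠ κ (n : ZMod e))).image
        (DirichletCharacter.changeLevel hfm), w χ :=
        sum_le_sum_of_subset_of_nonneg h2 fun χ _ _ => hw χ
    _ = ∑ ψ ∈ (univ : Finset (DirichletCharacter ℂ f)).filter (fun χ => χ.IsPrimitive ∧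
        ∃ n : ℕ, χ (n : ZMod f) ≠ κ (n : ZMod e)),
        w (DirichletCharacter.changeLevel hfm ψ) := by
        rw [sum_image]
        intro x _ y _ hxy
        exact DirichletCharacter.changeLevel_injective hfm hxy
    _ ≤ _ := sum_le_sum fun ψ _ => hW f hfm ψ

/-- sums over `D` and its divisors -/
theorem swap_sum (N : ℕ) (P : ℕ → ℝ) (hP : ∀ f, 0 ≤ P f) :
    ∑ D ∈ Icc 1 N, 1 / (Nat.totient D : ℝ) * ∑ f ∈ D.divisors.filter (fun f => f ≠ 1), P f ≤
      (∑ f ∈ (Icc 1 N).filter (fun f => f ≠ 1), 1 / (Nat.totient f : ℝ) * P f) *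
        ∑ g ∈ Icc 1 N, 1 / (Nat.totient g : ℝ) := by
  have h1 : ∑ D ∈ Icc 1 N, 1 / (Nat.totient D : ℝ) *
      ∑ f ∈ D.divisors.filter (fun f => f ≠ 1), P f =
      ∑ f ∈ (Icc 1 N).filter (fun f => f ≠ 1), ∑ D ∈ (Icc 1 N).filter (fun D => f ∣ D),
        1 / (Nat.totient D : ℝ) * P f := by
    simp_rw [mul_sum]
    refine sum_comm' fun D f => ?_
    simp only [mem_Icc, mem_filter, Nat.mem_divisors]
    constructor
    · rintro ⟨⟨h2, h3⟩, ⟨h4, h5⟩, h6⟩
      have h7 : f ≤ D := Nat.le_of_dvd (by omega) h4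
      have h8 : 0 < f := Nat.pos_of_dvd_of_pos h4 (by omega)
      exact ⟨⟨⟨h2, h3⟩, h4⟩, ⟨by omega, by omega⟩, h6⟩
    · rintro ⟨⟨⟨h2, h3⟩, h4⟩, ⟨h5, h5'⟩, h6⟩
      exact ⟨⟨h2, h3⟩, ⟨h4, by omega⟩, h6⟩
  rw [h1, sum_mul]
  refine sum_le_sum fun f hf => ?_
  rw [mem_filter, mem_Icc] at hf
  rw [← sum_mul]
  have htf : (0 : ℝ) < Nat.totient f := by exact_mod_cast Nat.totient_pos.2 (by omega)
  have h2 : ∑ D ∈ (Icc 1 N).filter (fun D => f ∣ D), 1 / (Nat.totient D : ℝ) ≤
      1 / (Nat.totient f : ℝ) * ∑ g ∈ Icc 1 N, 1 / (Nat.totient g : ℝ) := by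
    rw [mul_sum]
    have h3 : ∑ D ∈ (Icc 1 N).filter (fun D => f ∣ D), 1 / (Nat.totient D : ℝ) ≤
        ∑ D ∈ (Icc 1 N).filter (fun D => f ∣ D),
          1 / (Nat.totient f : ℝ) * (1 / (Nat.totient (D / f) : ℝ)) := by
      refine sum_le_sum fun D hD => ?_
      rw [mem_filter, mem_Icc] at hD
      obtain ⟨⟨h4, h5⟩, g, rfl⟩ := hD
      have hg : 0 < g := Nat.pos_of_ne_zero (by rintro rfl; simp at h4)
      rw [Nat.mul_div_cancel_left g (by omega : 0 < f)]
      have htg : (0 : ℝ) < Nat.totient g := by exact_mod_cast Nat.totient_pos.2 hg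
      rw [one_div_mul_one_div]
      apply one_div_le_one_div_of_le (by positivity)
      exact_mod_cast Nat.totient_super_multiplicative f g
    refine h3.trans ?_
    have hinj : Set.InjOn (fun D => D / f) ((Icc 1 N).filter (fun D => f ∣ D) : Finset ℕ) := by
      intro a ha b hb hab
      rw [mem_coe, mem_filter] at ha hb
      simp only at hab
      rw [← Nat.div_mul_cancel ha.2, ← Nat.div_mul_cancel hb.2, hab]
    rw [← sum_image (f := fun g => 1 / (Nat.totient f : ℝ) * (1 / (Nat.totient g : ℝ))) hinj]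
    apply sum_le_sum_of_subset_of_nonneg
    · intro g hg
      rw [mem_image] at hg
      obtain ⟨D, hD, rfl⟩ := hg
      rw [mem_filter, mem_Icc] at hD
      rw [mem_Icc]
      exact ⟨Nat.div_pos (Nat.le_of_dvd (by omega) hD.2) (by omega),
        (Nat.div_le_self _ _).trans hD.1.2⟩
    · intro g _ _
      positivity
  calc (∑ D ∈ (Icc 1 N).filter (fun D => f ∣ D), 1 / (Nat.totient D : ℝ)) * P f ≤
      (1 / (Nat.totient f : ℝ) * ∑ g ∈ Icc 1 N, 1 / (Nat.totient g : ℝ)) * P f :=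
        mul_le_mul_of_nonneg_right h2 (hP f)
    _ = _ := by ring

end Pool.Agent.W699.EG
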