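import Mathlib
import Pool.Agent.W699.EG.LsvB

/-! The fourth moment over the non-exceptional characters (part 3 of LSV). -/

set_option autoImplicit false

namespace Pool.Agent.W699.EG

open Finset
open Pool.Agent.W78.EG

variable {e : ℕ} {κ : DirichletCharacter ℂ e}

/-- fourth moment over the non-exceptional characters -/
noncomputable def a4 (κ : DirichletCharacter ℂ e) (Q t D : ℕ) : ℝ := ∑ χ ∈ Oth κ D, ‖SS κ Q t χ‖ ^ 4

theorem a4_nonneg (κ : DirichletCharacter ℂ e) (Q t D : ℕ) : 0 ≤ a4 κ Q t D := sum_nonneg fun _ _ => by positivity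

/-- the primitive characters -/
noncomputable def P4 (κ : DirichletCharacter ℂ e) (Q t f : ℕ) : ℝ :=
  PS κ f (fun ψ => ‖∑ m ∈ Ioc Q t, (th κ Q m : ℂ) * ψ (m : ZMod f)‖ ^ 4)

theorem P4_nonneg (κ : DirichletCharacter ℂ e) (Q t f : ℕ) : 0 ≤ P4 κ Q t f := PS_nonneg κ f _ fun _ => by positivity

theorem a4_le (he : 0 < e) (hκ : κ.IsPrimitive) {Q D C₀ : ℕ} (hQ : 1 ≤ Q) (hC : C₀ ≤ Q) (hD : 1 ≤ D) (hDQ : D ≤ C₀ * Q) (t : ℕ) :
    a4 κ Q t D ≤ 8 * ∑ f ∈ D.divisors.filter (fun f => f ≠ 1), P4 κ Q t f +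
      8 * Real.log (2 * Q) ^ 4 * Nat.totient D := by
  have : NeZero D := ⟨by omega⟩
  set L := Real.log (2 * Q) with hL
  have hQ1 : (1 : ℝ) ≤ Q := by exact_mod_cast hQ
  have hL0 : 0 ≤ L := Real.log_nonneg (by linarith)
  have h1 := prim_sum he hκ D (fun χ => max 0 (‖SS κ Q t χ‖ ^ 4 - 8 * L ^ 4)) (fun χ => le_max_left _ _)
    (fun f ψ => 8 * ‖∑ m ∈ Ioc Q t, (th κ Q m : ℂ) * ψ (m : ZMod f)‖ ^ 4) (by
      intro f h ψ
      apply max_le (by positivity)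
      have h2 := SS_changeLevel κ hQ hC hD hDQ t h ψ
      have h3 : ‖SS κ Q t (DirichletCharacter.changeLevel h ψ)‖ ^ 4 ≤ (‖SS κ Q t ψ‖ + L) ^ 4 :=
        pow_le_pow_left₀ (norm_nonneg _) h2 4
      have h4 := add_pow_le (norm_nonneg (SS κ Q t ψ)) hL0 4
      norm_num at h4
      have h5 : SS κ Q t ψ = ∑ m ∈ Ioc Q t, (th κ Q m : ℂ) * ψ (m : ZMod f) := rfl
      rw [← h5]
      linarith)
  have h6 : a4 κ Q t D ≤ ∑ χ ∈ Oth κ D, (max 0 (‖SS κ Q t χ‖ ^ 4 - 8 * L ^ 4) + 8 * L ^ 4) := by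
    unfold a4
    refine sum_le_sum fun χ _ => ?_
    have := le_max_right 0 (‖SS κ Q t χ‖ ^ 4 - 8 * L ^ 4)
    linarith
  rw [sum_add_distrib, sum_const, nsmul_eq_mul] at h6
  have h7 := Pool.Agent.W333.EC.card_char D (Oth κ D)
  have h8 : ((Oth κ D).card : ℝ) * (8 * L ^ 4) ≤ Nat.totient D * (8 * L ^ 4) :=
    mul_le_mul_of_nonneg_right h7 (by positivity)
  have h9 : ∑ f ∈ D.divisors.filter (fun f => f ≠ 1),
      PS κ f (fun ψ => 8 * ‖∑ m ∈ Ioc Q t, (th κ Q m : ℂ) * ψ (m : ZMod f)‖ ^ 4) =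
      8 * ∑ f ∈ D.divisors.filter (fun f => f ≠ 1), P4 κ Q t f := by
    rw [mul_sum]
    refine sum_congr rfl fun f _ => ?_
    unfold P4
    rw [PS_mul]
  rw [h9] at h1
  linarith

theorem P4_small {Q t f : ℕ} (hf : 1 ≤ f) {b : ℝ}
    (h : ∀ χ : DirichletCharacter ℂ f, χ.IsPrimitive →
      (∃ n : ℕ, χ (n : ZMod f) ≠ κ (n : ZMod e)) →
      ‖∑ m ∈ Ioc Q t, (th κ Q m : ℂ) * χ (m : ZMod f)‖ ≤ b) :
    1 / (Nat.totient f : ℝ) * P4 κ Q t f ≤ b ^ 4 := by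
  classical
  have : NeZero f := ⟨by omega⟩
  have ht : (0 : ℝ) < Nat.totient f := by exact_mod_cast Nat.totient_pos.2 (by omega)
  have h1 : P4 κ Q t f ≤ ∑ ψ ∈ (univ : Finset (DirichletCharacter ℂ f)).filter
      (fun χ => χ.IsPrimitive ∧ ∃ n : ℕ, χ (n : ZMod f) ≠ κ (n : ZMod e)), b ^ 4 := by
    unfold P4 PS
    have h2 : ∀ ψ ∈ (univ : Finset (DirichletCharacter ℂ f)).filter (fun χ => χ.IsPrimitive ∧
        ∃ n : ℕ, χ (n : ZMod f) ≠ κ (n : ZMod e)),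
        ‖∑ m ∈ Ioc Q t, (th κ Q m : ℂ) * ψ (m : ZMod f)‖ ^ 4 ≤ b ^ 4 := by
      intro ψ hψ
      rw [mem_filter] at hψ
      exact pow_le_pow_left₀ (norm_nonneg _) (h ψ hψ.2.1 hψ.2.2) 4
    refine le_trans (le_of_eq ?_) (sum_le_sum h2)
    refine sum_congr ?_ fun _ _ => rfl
    ext; simp
  rw [sum_const, nsmul_eq_mul] at h1
  have h3 := Pool.Agent.W333.EC.card_char f ((univ : Finset (DirichletCharacter ℂ f)).filter
    (fun χ => χ.IsPrimitive ∧ ∃ n : ℕ, χ (n : ZMod f) ≠ κ (n : ZMod e)))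
  have hb : 0 ≤ b ^ 4 := by positivity
  rw [one_div, inv_mul_le_iff₀ ht]
  exact h1.trans (mul_le_mul_of_nonneg_right h3 hb)

/-- the fourth moment -/
theorem W_bound (he : 0 < e) (hκ : κ.IsPrimitive) (h1 : S_SWC κ) (h2 : S_LS4 κ) (C₀ A : ℕ) : ∃ C : ℝ, 0 ≤ C ∧ ∃ Q₀ : ℕ, ∀ Q : ℕ,
    Q₀ ≤ Q → ∀ t : ℕ, Q ≤ t → t ≤ 2 * Q →
    ∑ D ∈ Icc 1 (C₀ * Q), 1 / (Nat.totient D : ℝ) * a4 κ Q t D ≤ C * (Q : ℝ) ^ 4 / Real.log Q ^ A := by
  classical
  obtain ⟨B, C2, Q2, hLS⟩ := h2 C₀ (A + 1)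
  obtain ⟨C1, Q1, hSW⟩ := h1.1 (A + 1 + B) B
  obtain ⟨C3, hC3, hinv⟩ := Pool.Agent.W333.EC.sum_inv_tot
  obtain ⟨Q4, hQ4⟩ := Pool.Agent.W333.EC.log_pow_le (A + 4) (128 * C₀)
  refine ⟨8 * (|C1| ^ 4 + |C2|) * (C3 * (2 + C₀)) + 1, by positivity,
    max (max Q1 Q2) (max Q4 (C₀ + 3)), fun Q hQ t ht1 ht2 => ?_⟩
  have hQ1 : Q1 ≤ Q := by omega
  have hQ2 : Q2 ≤ Q := by omega
  have hQ4' : Q4 ≤ Q := by omega
  have hQC : C₀ ≤ Q := by omega
  have hQ3 : 3 ≤ Q := by omega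
  have hQpos : (0 : ℝ) < Q := by exact_mod_cast (by omega : 0 < Q)
  have hQr : (3 : ℝ) ≤ Q := by exact_mod_cast hQ3
  set l := Real.log Q with hl
  have hl1 : 1 ≤ l := by
    have h1 : Real.log (Real.exp 1) ≤ Real.log Q := by
      apply Real.log_le_log (Real.exp_pos _)
      have := Real.exp_one_lt_d9
      linarith
    rwa [Real.log_exp] at h1
  have hl0 : 0 < l := by linarith
  have hlN : ∀ k : ℕ, 1 ≤ l ^ k := fun k => one_le_pow₀ hl1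
  have hlP : ∀ k : ℕ, 0 < l ^ k := fun k => by positivity
  set L := Real.log (2 * Q) with hL
  have hL0 : 0 ≤ L := Real.log_nonneg (by linarith)
  have hL2 : L ≤ 2 * l := by
    rw [hL, Real.log_mul (by norm_num) hQpos.ne']
    have h3 : Real.log 2 ≤ Real.log Q := Real.log_le_log (by norm_num) (by linarith)
    linarith
  rcases Nat.eq_zero_or_pos C₀ with h0 | h0
  · subst h0
    simp only [Nat.zero_mul]
    rw [Icc_eq_empty (by norm_num), sum_empty]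
    positivity
  set N := C₀ * Q with hN
  have hN1 : 1 ≤ N := Nat.mul_pos h0 (by omega)
  -- reduction to primitive characters
  have e1 : ∑ D ∈ Icc 1 N, 1 / (Nat.totient D : ℝ) * a4 κ Q t D ≤
      8 * (∑ D ∈ Icc 1 N, 1 / (Nat.totient D : ℝ) *
        ∑ f ∈ D.divisors.filter (fun f => f ≠ 1), P4 κ Q t f) + 8 * L ^ 4 * N := by
    rw [mul_sum]
    have e2 : (8 * L ^ 4 * N : ℝ) = ∑ D ∈ Icc 1 N, 8 * L ^ 4 := by
      rw [sum_const, Nat.card_Icc, nsmul_eq_mul]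
      push_cast [Nat.add_sub_cancel]
      ring
    rw [e2, ← sum_add_distrib]
    refine sum_le_sum fun D hD => ?_
    rw [mem_Icc] at hD
    have htD : (0 : ℝ) < Nat.totient D := by exact_mod_cast Nat.totient_pos.2 (by omega)
    have h3 := a4_le he hκ (by omega : 1 ≤ Q) hQC hD.1 hD.2 t
    have h4 : 1 / (Nat.totient D : ℝ) * a4 κ Q t D ≤ 1 / (Nat.totient D : ℝ) *
      (8 * ∑ f ∈ D.divisors.filter (fun f => f ≠ 1), P4 κ Q t f +
      8 * L ^ 4 * Nat.totient D) := mul_le_mul_of_nonneg_left h3 (by positivity)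
    refine h4.trans (le_of_eq ?_)
    field_simp
  have e3 := swap_sum N (P4 κ Q t) (P4_nonneg κ Q t)
  -- the two ranges
  have e4 : ∑ f ∈ (Icc 1 N).filter (fun f => f ≠ 1), 1 / (Nat.totient f : ℝ) * P4 κ Q t f ≤
      (|C1| ^ 4 + |C2|) * ((Q : ℝ) ^ 4 / l ^ (A + 1)) := by
    have hnn : ∀ f : ℕ, 0 ≤ 1 / (Nat.totient f : ℝ) * P4 κ Q t f := fun f =>
      mul_nonneg (by positivity) (P4_nonneg κ Q t f)
    have s1 : ∑ f ∈ (Icc 1 N).filter (fun f => f ≠ 1), 1 / (Nat.totient f : ℝ) * P4 κ Q t f ≤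
        ∑ f ∈ (Icc 1 N).filter (fun f : ℕ => f ≠ 1 ∧ (f : ℝ) ≤ l ^ B),
          1 / (Nat.totient f : ℝ) * P4 κ Q t f +
        ∑ f ∈ (Icc 1 N).filter (fun f : ℕ => l ^ B < (f : ℝ)), 1 / (Nat.totient f : ℝ) * P4 κ Q t f := by
      rw [← sum_filter_add_sum_filter_not ((Icc 1 N).filter (fun f => f ≠ 1))
        (fun f : ℕ => (f : ℝ) ≤ l ^ B)]
      apply add_le_add
      · rw [filter_filter]
      · apply sum_le_sum_of_subset_of_nonneg
        · intro f hf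
          rw [mem_filter, mem_filter, not_le] at hf
          rw [mem_filter]
          exact ⟨hf.1.1, hf.2⟩
        · intro f _ _; exact hnn f
    have s2 : ∑ f ∈ (Icc 1 N).filter (fun f : ℕ => f ≠ 1 ∧ (f : ℝ) ≤ l ^ B),
          1 / (Nat.totient f : ℝ) * P4 κ Q t f ≤ |C1| ^ 4 * ((Q : ℝ) ^ 4 / l ^ (A + 1)) := by
      set b : ℝ := |C1| * Q / l ^ (A + 1 + B) with hb
      have hb0 : 0 ≤ b := by positivity
      have s3 : ∑ f ∈ (Icc 1 N).filter (fun f : ℕ => f ≠ 1 ∧ (f : ℝ) ≤ l ^ B),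
          1 / (Nat.totient f : ℝ) * P4 κ Q t f ≤
          ∑ f ∈ (Icc 1 N).filter (fun f : ℕ => f ≠ 1 ∧ (f : ℝ) ≤ l ^ B), b ^ 4 := by
        refine sum_le_sum fun f hf => ?_
        rw [mem_filter, mem_Icc] at hf
        apply P4_small hf.1.1
        intro χ hχ hχ'
        have h3 := hSW Q hQ1 t ht1 ht2 f (by omega) hf.2.2 χ hχ hχ'
        refine h3.trans ?_
        rw [hb]
        apply div_le_div_of_nonneg_right _ (hlP _).le
        exact mul_le_mul_of_nonneg_right (le_abs_self C1) hQpos.le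
      rw [sum_const, nsmul_eq_mul] at s3
      have s4 : ((((Icc 1 N).filter (fun f : ℕ => f ≠ 1 ∧ (f : ℝ) ≤ l ^ B)).card : ℕ) : ℝ) ≤
          l ^ B := by
        have s5 : (Icc 1 N).filter (fun f : ℕ => f ≠ 1 ∧ (f : ℝ) ≤ l ^ B) ⊆
            Icc 1 ⌊l ^ B⌋₊ := by
          intro f hf
          rw [mem_filter, mem_Icc] at hf
          rw [mem_Icc]
          exact ⟨hf.1.1, Nat.le_floor hf.2.2⟩
        have s6 := card_le_card s5
        rw [Nat.card_Icc, Nat.add_sub_cancel] at s6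
        calc ((((Icc 1 N).filter (fun f : ℕ => f ≠ 1 ∧ (f : ℝ) ≤ l ^ B)).card : ℕ) : ℝ) ≤
            (⌊l ^ B⌋₊ : ℝ) := by exact_mod_cast s6
          _ ≤ l ^ B := Nat.floor_le (hlP B).le
      refine s3.trans ((mul_le_mul_of_nonneg_right s4 (by positivity)).trans ?_)
      have s7 : l ^ B * b ^ 4 = |C1| ^ 4 * (Q : ℝ) ^ 4 * (l ^ B / (l ^ (A + 1 + B)) ^ 4) := by
        rw [hb, div_pow, mul_pow]; ring
      have s8 : l ^ B / (l ^ (A + 1 + B)) ^ 4 ≤ 1 / l ^ (A + 1) := by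
        rw [div_le_div_iff₀ (by positivity) (by positivity), one_mul, ← pow_add, ← pow_mul]
        exact pow_le_pow_right₀ hl1 (by omega)
      rw [s7]
      calc |C1| ^ 4 * (Q : ℝ) ^ 4 * (l ^ B / (l ^ (A + 1 + B)) ^ 4) ≤
          |C1| ^ 4 * (Q : ℝ) ^ 4 * (1 / l ^ (A + 1)) :=
            mul_le_mul_of_nonneg_left s8 (by positivity)
        _ = _ := by ring
    have s9 : ∑ f ∈ (Icc 1 N).filter (fun f : ℕ => l ^ B < (f : ℝ)),
        1 / (Nat.totient f : ℝ) * P4 κ Q t f ≤ |C2| * ((Q : ℝ) ^ 4 / l ^ (A + 1)) := by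
      have h3 := hLS Q hQ2 t ht1 ht2
      have h4 : C2 * (Q : ℝ) ^ 4 / l ^ (A + 1) ≤ |C2| * ((Q : ℝ) ^ 4 / l ^ (A + 1)) := by
        rw [mul_div_assoc]
        exact mul_le_mul_of_nonneg_right (le_abs_self C2) (by positivity)
      refine le_trans ?_ (h3.trans h4)
      refine sum_le_sum fun f _ => ?_
      apply mul_le_mul_of_nonneg_left _ (by positivity)
      unfold P4 PS
      apply sum_le_sum_of_subset_of_nonneg
      · intro ψ hψ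
        rw [mem_filter] at hψ ⊢
        exact ⟨hψ.1, hψ.2.1⟩
      · intro ψ _ _; positivity
    rw [add_mul]
    linarith
  have e5 := hinv N hN1
  have e6 : C3 * (1 + Real.log N) ≤ C3 * (2 + C₀) * l := by
    rw [mul_assoc]
    apply mul_le_mul_of_nonneg_left _ hC3.le
    have hC0r : (1 : ℝ) ≤ C₀ := by exact_mod_cast h0
    rw [hN]
    push_cast
    rw [Real.log_mul (by positivity) (by positivity)]
    have h3 : Real.log C₀ ≤ C₀ := (Real.log_le_sub_one_of_pos (by linarith)).trans (by linarith)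
    nlinarith
  have e7 : (∑ f ∈ (Icc 1 N).filter (fun f => f ≠ 1), 1 / (Nat.totient f : ℝ) * P4 κ Q t f) *
      ∑ g ∈ Icc 1 N, 1 / (Nat.totient g : ℝ) ≤
      ((|C1| ^ 4 + |C2|) * ((Q : ℝ) ^ 4 / l ^ (A + 1))) * (C3 * (2 + C₀) * l) := by
    apply mul_le_mul e4 (e5.trans e6) (sum_nonneg fun _ _ => by positivity) (by positivity)
  have e8 : ((|C1| ^ 4 + |C2|) * ((Q : ℝ) ^ 4 / l ^ (A + 1))) * (C3 * (2 + C₀) * l) =
      (|C1| ^ 4 + |C2|) * (C3 * (2 + C₀)) * ((Q : ℝ) ^ 4 / l ^ A) := by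
    rw [show l ^ (A + 1) = l ^ A * l from pow_succ l A]
    have := (hlP A).ne'
    field_simp
  have e9 : 8 * L ^ 4 * N ≤ (Q : ℝ) ^ 4 / l ^ A := by
    rw [le_div_iff₀ (hlP A)]
    have h3 := hQ4 Q hQ4'
    rw [← hl] at h3
    have h4 : L ^ 4 ≤ (2 * l) ^ 4 := pow_le_pow_left₀ hL0 hL2 4
    have h5 : (N : ℝ) = C₀ * Q := by rw [hN]; push_cast; ring
    calc 8 * L ^ 4 * N * l ^ A ≤ 8 * (2 * l) ^ 4 * N * l ^ A := by gcongr
      _ = (128 * C₀ * l ^ (A + 4)) * Q := by rw [h5, pow_add]; ring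
      _ ≤ Q * Q := mul_le_mul_of_nonneg_right h3 hQpos.le
      _ ≤ (Q : ℝ) ^ 4 := by
        have : (1 : ℝ) ≤ (Q : ℝ) ^ 2 := one_le_pow₀ (by linarith)
        nlinarith [sq_nonneg (Q : ℝ), mul_pos hQpos hQpos]
  have e10 : (8 * (|C1| ^ 4 + |C2|) * (C3 * (2 + C₀)) + 1) * (Q : ℝ) ^ 4 / l ^ A =
      8 * ((|C1| ^ 4 + |C2|) * (C3 * (2 + C₀)) * ((Q : ℝ) ^ 4 / l ^ A)) + (Q : ℝ) ^ 4 / l ^ A := by
    ring
  rw [e10, ← e8]
  linarith

end Pool.Agent.W699.EG
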